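import Pool.Agent.LPM.Converse

/-!
# Lattice path matroids are characterised by a sentence of monadic second order logic

Affirmative answer to Q1: there is a sentence of `MS₀` which holds in a finite matroid exactly when
the matroid is a lattice path matroid.

Idea.  Order the ground set by the steps.  A matroid is a lattice path matroid if and only if, for
some ordering of its ground set, every set of the size of a base which meets each initial and each
final segment in at most rank many elements is a base.  A matroid has such an ordering if and only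
if the restrictions to all its components have one, and for a connected matroid this is equivalent
to the existence of two sets `L`, `U` such that the closures of the circuits with exactly one
element outside `L`, together with the complements of the closures of the circuits with exactly one
element outside `U`, form a chain, and every circuit `C` satisfies `C ⊆ F ∩ G ⊆ cl C` for closures
`F`, `G` of the two kinds which form a modular pair.  All this can be written in `MS₀`.
-/

set_option autoImplicit false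
set_option linter.unusedSectionVars false

open Set
open scoped Matroid
open Pool.Agent.LPM

namespace Pool.Agent.Results.MP_b5ca43_co.LatticePathMSO

universe u

/-! ### The logic `MS₀` -/

/-- The formulas of `MS₀` whose free variables are among `n` set variables, indexed by `Fin n`.
The atomic formulas are `ind i` (the set `X i` is independent) and `sub i j` (`X i ⊆ X j`).  The
quantified variable of `ex φ` and `all φ` is the variable with index `0` of `φ`, and the variable
with index `i` outside is the variable with index `i + 1` inside (de Bruijn indices).  A sentence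
is an element of `Fml 0`. -/
inductive Fml : ℕ → Type
  | ind {n : ℕ} (i : Fin n) : Fml n
  | sub {n : ℕ} (i j : Fin n) : Fml n
  | neg {n : ℕ} (φ : Fml n) : Fml n
  | and {n : ℕ} (φ ψ : Fml n) : Fml n
  | or {n : ℕ} (φ ψ : Fml n) : Fml n
  | imp {n : ℕ} (φ ψ : Fml n) : Fml n
  | ex {n : ℕ} (φ : Fml (n + 1)) : Fml n
  | all {n : ℕ} (φ : Fml (n + 1)) : Fml n

/-- Satisfaction of a formula in a matroid `M`, for the assignment `v` of sets to the free
variables.  The quantifiers range over the subsets of the ground set `M.E`. -/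
def Sat {α : Type u} (M : Matroid α) : {n : ℕ} → Fml n → (Fin n → Set α) → Prop
  | _, .ind i, v => M.Indep (v i)
  | _, .sub i j, v => v i ⊆ v j
  | _, .neg φ, v => ¬ Sat M φ v
  | _, .and φ ψ, v => Sat M φ v ∧ Sat M ψ v
  | _, .or φ ψ, v => Sat M φ v ∨ Sat M ψ v
  | _, .imp φ ψ, v => Sat M φ v → Sat M ψ v
  | _, .ex φ, v => ∃ X : Set α, X ⊆ M.E ∧ Sat M φ (Matrix.vecCons X v)
  | _, .all φ, v => ∀ X : Set α, X ⊆ M.E → Sat M φ (Matrix.vecCons X v)

/-! ### Lattice path matroids -/

/-- A lattice path from `(0,0)` to `(m,r)`: a sequence of `m + r` unit steps, where `true` stands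
for a North step `(0,1)` and `false` for an East step `(1,0)`, with exactly `r` North steps. -/
structure LatticePath (m r : ℕ) where
  /-- the steps of the path -/
  step : Fin (m + r) → Bool
  /-- there are exactly `r` North steps (hence exactly `m` East steps) -/
  north : (Finset.univ.filter fun i => step i = true).card = r

/-- The height (second coordinate) of the point reached by the path after its first `k` steps. -/
def LatticePath.height {m r : ℕ} (R : LatticePath m r) (k : ℕ) : ℕ :=
  (Finset.univ.filter fun i : Fin (m + r) => i.val < k ∧ R.step i = true).card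

/-- `P.Below Q`: the path `P` never goes above the path `Q`.  (After `k` steps both paths are on
the antidiagonal `x + y = k`, so the comparison is that of the heights.) -/
def LatticePath.Below {m r : ℕ} (P Q : LatticePath m r) : Prop := ∀ k, P.height k ≤ Q.height k

/-- `M` is a lattice path matroid: for some `m`, `r` and lattice paths `P`, `Q` from `(0,0)` to
`(m,r)` with `P` never above `Q`, there is a bijection `e` from the ground set of `M` to the set
of the step indices such that the bases of `M` correspond to the sets `B(R)` of the indices of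
the North steps of `R`, for the lattice paths `R` in the region between `P` and `Q`. -/
def IsLatticePathMatroid {α : Type u} (M : Matroid α) : Prop :=
  ∃ (m r : ℕ) (P Q : LatticePath m r), P.Below Q ∧ ∃ e : M.E ≃ Fin (m + r),
    ∀ B ⊆ M.E, M.IsBase B ↔ ∃ R : LatticePath m r, P.Below R ∧ R.Below Q ∧
      ∀ x : M.E, x.1 ∈ B ↔ R.step (e x) = true

/-! ### Lattice path matroids and orderings -/

variable {α : Type u}

section

variable (M : Matroid α) [M.Finite]

theorem height_eq {n : ℕ} (e : M.E ≃ Fin n) {g : α → ℕ} (hge : ∀ x : M.E, g x.1 = (e x).val)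
    {B : Set α} (_hB : B ⊆ M.E) (s : Fin n → Bool) (h : ∀ x : M.E, x.1 ∈ B ↔ s (e x) = true)
    (k : ℕ) : (B ∩ Pre M g k).ncard =
      (Finset.univ.filter fun i : Fin n => i.val < k ∧ s i = true).card := by
  have h1 : B ∩ Pre M g k = (fun i : Fin n => (e.symm i).1) ''
      ((Finset.univ.filter fun i : Fin n => i.val < k ∧ s i = true : Finset (Fin n)) :
        Set (Fin n)) := by
    ext x
    simp only [mem_inter_iff, Pre, mem_ofPred_eq, mem_image, Finset.coe_filter, Finset.mem_univ,
      true_and]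
    constructor
    · rintro ⟨hxB, hxE, hxk⟩
      refine ⟨e ⟨x, hxE⟩, ⟨?_, (h ⟨x, hxE⟩).1 hxB⟩, by simp⟩
      have := hge ⟨x, hxE⟩
      simp only at this
      omega
    · rintro ⟨i, ⟨hi, hs⟩, rfl⟩
      have h2 := hge (e.symm i)
      rw [e.apply_symm_apply] at h2
      refine ⟨(h (e.symm i)).2 (by rw [e.apply_symm_apply]; exact hs), (e.symm i).2, ?_⟩
      omega
  rw [h1, Set.ncard_image_of_injective, Set.ncard_coe_finset]
  intro i j hij
  exact e.symm.injective (Subtype.ext hij)

theorem total_eq {n : ℕ} (e : M.E ≃ Fin n) {g : α → ℕ} (hge : ∀ x : M.E, g x.1 = (e x).val)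
    {B : Set α} (hB : B ⊆ M.E) (s : Fin n → Bool) (h : ∀ x : M.E, x.1 ∈ B ↔ s (e x) = true) :
    B.ncard = (Finset.univ.filter fun i : Fin n => s i = true).card := by
  have h1 := height_eq M e hge hB s h n
  rw [Pre_top M (T := n) (fun y hy => by have := hge ⟨y, hy⟩; simp only at this; rw [this]; exact
    (e ⟨y, hy⟩).2), inter_eq_left.2 hB] at h1
  rw [h1]
  congr 1
  ext i
  simp

/-- The lattice path condition only depends on the order of the labels. -/
theorem LP_congr {g g' : α → ℕ} (h : ∀ x ∈ M.E, ∀ y ∈ M.E, g x < g y → g' x < g' y)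
    (hLP : LP M g) : LP M g' := by
  have key : ∀ t, ∃ t', Pre M g t = Pre M g' t' ∧ Suf M g t = Suf M g' t' := by
    intro t
    obtain ⟨t', ht'⟩ := eq_Pre M g' (Pre_sub M g t) (by
      rintro y ⟨hy, hyt⟩ y' hy' hn
      refine h y hy y' hy' ?_
      by_contra hlt
      exact hn ⟨hy', by omega⟩)
    refine ⟨t', ht', ?_⟩
    ext x
    have h1 : x ∈ Pre M g t ↔ x ∈ Pre M g' t' := by rw [ht']
    simp only [Pre, Suf, mem_ofPred_eq] at h1 ⊢
    constructor
    · rintro ⟨h2, h3⟩
      refine ⟨h2, ?_⟩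
      by_contra h4
      have := (h1.2 ⟨h2, by omega⟩).2
      omega
    · rintro ⟨h2, h3⟩
      refine ⟨h2, ?_⟩
      by_contra h4
      have := (h1.1 ⟨h2, by omega⟩).2
      omega
  intro B hB hcard h1 h2
  refine hLP B hB hcard (fun t => ?_) (fun t => ?_)
  · obtain ⟨t', ht1, -⟩ := key t
    rw [ht1]; exact h1 t'
  · obtain ⟨t', -, ht2⟩ := key t
    rw [ht2]; exact h2 t'

theorem IsLatticePathMatroid.exists_LP (h : IsLatticePathMatroid M) :
    ∃ g : α → ℕ, InjOn g M.E ∧ LP M g := by
  classical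
  obtain ⟨m, r, P, Q, hPQ, e, he⟩ := h
  let g : α → ℕ := fun x => if hx : x ∈ M.E then (e ⟨x, hx⟩).val else 0
  have hge : ∀ x : M.E, g x.1 = (e x).val := fun x => dif_pos x.2
  have hg : InjOn g M.E := by
    intro x hx y hy hxy
    have h1 := hge ⟨x, hx⟩
    have h2 := hge ⟨y, hy⟩
    simp only at h1 h2
    rw [h1, h2] at hxy
    exact congrArg Subtype.val (e.injective (Fin.ext hxy))
  refine ⟨g, hg, ?_⟩
  -- the base given by `Q`
  have hbase : ∀ B, M.IsBase B → ∃ R : LatticePath m r, P.Below R ∧ R.Below Q ∧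
      ∀ x : M.E, x.1 ∈ B ↔ R.step (e x) = true := fun B hB => (he B hB.subset_ground).1 hB
  have hheight : ∀ B, B ⊆ M.E → ∀ R : LatticePath m r, (∀ x : M.E, x.1 ∈ B ↔ R.step (e x) = true) →
      ∀ k, (B ∩ Pre M g k).ncard = R.height k := fun B hB R hR k =>
    height_eq M e hge hB R.step hR k
  have hrank : rk M M.E = r := by
    obtain ⟨B, hB⟩ := M.exists_isBase
    obtain ⟨R, _, _, hR⟩ := hbase B hB
    rw [← base_ncard M hB, total_eq M e hge hB.subset_ground R.step hR, R.north]
  have hpre : ∀ k, rk M (Pre M g k) ≤ Q.height k := by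
    intro k
    obtain ⟨I, hI⟩ := M.exists_isBasis (Pre M g k) (Pre_sub M g k)
    obtain ⟨B, hB, hIB⟩ := hI.exists_isBase
    obtain ⟨R, _, hRQ, hR⟩ := hbase B hB
    rw [← basis_ncard M hI, hIB, hheight B hB.subset_ground R hR]
    exact hRQ k
  have hsuf : ∀ k, rk M (Suf M g k) + P.height k ≤ r := by
    intro k
    obtain ⟨I, hI⟩ := M.exists_isBasis (Suf M g k) (Suf_sub M g k)
    obtain ⟨B, hB, hIB⟩ := hI.exists_isBase
    obtain ⟨R, hPR, _, hR⟩ := hbase B hB
    have h1 := hPR k
    rw [← hheight B hB.subset_ground R hR] at h1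
    have h2 := ncard_Pre_add_Suf M g hB.subset_ground k
    rw [base_ncard M hB, hrank] at h2
    rw [← basis_ncard M hI, hIB]
    omega
  intro B hB hcard h1 h2
  rw [he B hB]
  let s : Fin (m + r) → Bool := fun i => decide ((e.symm i).1 ∈ B)
  have hs : ∀ x : M.E, x.1 ∈ B ↔ s (e x) = true := by
    intro x
    simp [s]
  let R : LatticePath m r := ⟨s, by rw [← total_eq M e hge hB s hs, hcard, hrank]⟩
  refine ⟨R, ?_, ?_, hs⟩
  · intro k
    rw [← hheight B hB R hs k]
    have h3 := h2 k
    have h4 := hsuf k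
    have h5 := ncard_Pre_add_Suf M g hB k
    rw [hcard, hrank] at h5
    omega
  · intro k
    rw [← hheight B hB R hs k]
    exact (h1 k).trans (hpre k)

/-- An order preserving enumeration of the ground set. -/
theorem exists_enum {g : α → ℕ} (hg : InjOn g M.E) :
    ∃ e : M.E ≃ Fin M.E.ncard, ∀ x y : M.E, g x.1 < g y.1 → e x < e y := by
  classical
  let s : Finset ℕ := M.ground_finite.toFinset.image g
  have hs : s.card = M.E.ncard := by
    rw [Finset.card_image_of_injOn (by simpa using hg), ← Set.ncard_coe_finset]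
    simp
  let e₁ : M.E ≃ s := Equiv.ofBijective
    (fun x => ⟨g x.1, Finset.mem_image.2 ⟨x.1, by simp [x.2], rfl⟩⟩) (by
      constructor
      · intro x y hxy
        exact Subtype.ext (hg x.2 y.2 (congrArg Subtype.val hxy))
      · rintro ⟨t, ht⟩
        obtain ⟨x, hx, rfl⟩ := Finset.mem_image.1 ht
        exact ⟨⟨x, by simpa using hx⟩, rfl⟩)
  refine ⟨e₁.trans (s.orderIsoOfFin hs).symm.toEquiv, ?_⟩
  intro x y hxy
  exact (s.orderIsoOfFin hs).symm.strictMono (show e₁ x < e₁ y from hxy)

theorem isLatticePathMatroid_of_LP {g₀ : α → ℕ} (hg₀ : InjOn g₀ M.E) (hLP₀ : LP M g₀) :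
    IsLatticePathMatroid M := by
  classical
  obtain ⟨e₀, he₀⟩ := exists_enum M hg₀
  have hrn : rk M M.E ≤ M.E.ncard := by
    obtain ⟨B, hB⟩ := M.exists_isBase
    rw [← base_ncard M hB]
    exact Set.ncard_le_ncard hB.subset_ground M.ground_finite
  obtain ⟨m, hm⟩ : ∃ m, m + rk M M.E = M.E.ncard := ⟨M.E.ncard - rk M M.E, by omega⟩
  set r := rk M M.E with hr
  let e : M.E ≃ Fin (m + r) := e₀.trans (finCongr hm.symm)
  have he : ∀ x y : M.E, g₀ x.1 < g₀ y.1 → e x < e y := fun x y h => he₀ x y h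
  let g : α → ℕ := fun x => if hx : x ∈ M.E then (e ⟨x, hx⟩).val else 0
  have hge : ∀ x : M.E, g x.1 = (e x).val := fun x => dif_pos x.2
  have hg : InjOn g M.E := by
    intro x hx y hy hxy
    have h1 := hge ⟨x, hx⟩
    have h2 := hge ⟨y, hy⟩
    simp only at h1 h2
    rw [h1, h2] at hxy
    exact congrArg Subtype.val (e.injective (Fin.ext hxy))
  have hLP : LP M g := by
    refine LP_congr M ?_ hLP₀
    intro x hx y hy hxy
    have h1 := hge ⟨x, hx⟩
    have h2 := hge ⟨y, hy⟩
    simp only at h1 h2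
    rw [h1, h2]
    exact he ⟨x, hx⟩ ⟨y, hy⟩ hxy
  have hsle : ∀ t, rk M (Suf M g t) ≤ r := fun t => rk_mono M (Suf_sub M g t)
  -- the upper path
  have hQs : ∀ x : M.E, x.1 ∈ Lset M g ↔
      (fun i : Fin (m + r) => decide (rk M (Pre M g i.val) < rk M (Pre M g (i.val + 1)))) (e x)
        = true := by
    intro x
    simp only [Lset, mem_ofPred_eq, decide_eq_true_eq, hge x]
    exact ⟨fun h => h.2, fun h => ⟨x.2, h⟩⟩
  have hLcard : (Lset M g).ncard = r := base_ncard M (hLP.Lset_base M hg)
  let Q : LatticePath m r :=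
    ⟨fun i => decide (rk M (Pre M g i.val) < rk M (Pre M g (i.val + 1))), by
      rw [← total_eq M e hge (Lset_sub M) _ hQs, hLcard]⟩
  have hQh : ∀ k, Q.height k = rk M (Pre M g k) := by
    intro k
    rw [← Lset_count M hg k]
    exact (height_eq M e hge (Lset_sub M) _ hQs k).symm
  -- the lower path
  let f : ℕ → ℕ := fun t => r - rk M (Suf M g t)
  let U : Set α := {y | y ∈ M.E ∧ f (g y) < f (g y + 1)}
  have hUE : U ⊆ M.E := fun y hy => hy.1
  have hUcount : ∀ t, (U ∩ Pre M g t).ncard = f t := by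
    intro t
    refine count_steps M hg f ?_ ?_ ?_ ?_ t
    · simp only [f, Suf_zero]
      omega
    · intro t
      have h1 : rk M (Suf M g (t + 1)) ≤ rk M (Suf M g t) :=
        rk_mono M (Suf_anti M g (Nat.le_succ t))
      simp only [f]
      omega
    · intro t
      have h1 := rk_Suf_succ M hg t
      have h2 := hsle t
      simp only [f]
      omega
    · intro t ht
      rcases Suf_succ_sub M hg t with h | ⟨y, hy, hyt, _⟩
      · simp only [f, h]
      · exact absurd hyt (ht y hy)
  have hPs : ∀ x : M.E, x.1 ∈ U ↔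
      (fun i : Fin (m + r) => decide (f i.val < f (i.val + 1))) (e x) = true := by
    intro x
    simp only [U, mem_ofPred_eq, decide_eq_true_eq, hge x]
    exact ⟨fun h => h.2, fun h => ⟨x.2, h⟩⟩
  obtain ⟨T, hT⟩ := exists_bound M g
  have hUcard : U.ncard = r := by
    have h1 := hUcount T
    rw [Pre_top M hT, inter_eq_left.2 hUE] at h1
    rw [h1]
    simp only [f, Suf_top M hT, rk_empty]
    omega
  let P : LatticePath m r := ⟨fun i => decide (f i.val < f (i.val + 1)), by
    rw [← total_eq M e hge hUE _ hPs, hUcard]⟩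
  have hPh : ∀ k, P.height k = r - rk M (Suf M g k) := by
    intro k
    have h1 := hUcount k
    rw [height_eq M e hge hUE (fun i : Fin (m + r) => decide (f i.val < f (i.val + 1)))
      hPs k] at h1
    exact h1
  refine ⟨m, r, P, Q, ?_, e, ?_⟩
  · intro k
    rw [hPh, hQh]
    have := rk_Pre_add_Suf M g (le_refl k)
    omega
  · intro B hB
    constructor
    · intro hbase
      let s : Fin (m + r) → Bool := fun i => decide ((e.symm i).1 ∈ B)
      have hs : ∀ x : M.E, x.1 ∈ B ↔ s (e x) = true := by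
        intro x
        simp [s]
      let R : LatticePath m r := ⟨s, by rw [← total_eq M e hge hB s hs, base_ncard M hbase]⟩
      have hRh : ∀ k, (B ∩ Pre M g k).ncard = R.height k := fun k =>
        height_eq M e hge hB s hs k
      refine ⟨R, ?_, ?_, hs⟩
      · intro k
        rw [hPh]
        refine le_trans ?_ (hRh k).le
        have h1 := ncard_Pre_add_Suf M g hB k
        have h2 := indep_ncard_le M (hbase.indep.subset
          (inter_subset_left : B ∩ Suf M g k ⊆ B)) inter_subset_right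
        rw [base_ncard M hbase] at h1
        omega
      · intro k
        rw [hQh]
        refine le_trans (hRh k).ge ?_
        exact indep_ncard_le M (hbase.indep.subset inter_subset_left) inter_subset_right
    · rintro ⟨R, hPR, hRQ, hR⟩
      have hRh : ∀ k, (B ∩ Pre M g k).ncard = R.height k := fun k =>
        height_eq M e hge hB R.step hR k
      have hcard : B.ncard = r := by
        rw [total_eq M e hge hB R.step hR, R.north]
      refine hLP B hB hcard (fun k => ?_) (fun k => ?_)
      · rw [hRh, ← hQh]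
        exact hRQ k
      · have h1 := ncard_Pre_add_Suf M g hB k
        rw [hRh, hcard] at h1
        have h2 := hPR k
        rw [hPh] at h2
        have h3 := hsle k
        omega

theorem isLatticePathMatroid_iff : IsLatticePathMatroid M ↔ PhiAll M := by
  rw [← exists_LP_iff]
  exact ⟨fun h => h.exists_LP M, fun ⟨_, hg, hLP⟩ => isLatticePathMatroid_of_LP M hg hLP⟩

end

/-! ### Formulas -/

section Formulas

variable (M : Matroid α)

section

variable {n : ℕ} (v : Fin n → Set α)

/-- `X_i` is a maximal independent subset of `X_w`. -/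
def fBasis (i w : Fin n) : Fml n :=
  .and (.and (.ind i) (.sub i w))
    (.all (.imp (.ind 0) (.imp (.sub 0 w.succ) (.imp (.sub i.succ 0) (.sub 0 i.succ)))))

theorem sat_fBasis (i w : Fin n) : Sat M (fBasis i w) v ↔ M.IsBasis' (v i) (v w) := by
  simp only [fBasis, Sat, Matrix.cons_val_zero, Matrix.cons_val_succ]
  constructor
  · rintro ⟨⟨h1, h2⟩, h3⟩
    exact ⟨⟨h1, h2⟩, fun Y hY hle => h3 Y hY.1.subset_ground hY.1 hY.2 hle⟩
  · rintro ⟨⟨h1, h2⟩, h3⟩
    exact ⟨⟨h1, h2⟩, fun Y _ h4 h5 h6 => h3 ⟨h4, h5⟩ h6⟩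

/-- `X_x` is a subset of the closure of `X_d`. -/
def fCl (x d : Fin n) : Fml n :=
  .ex (.and (.sub x.succ 0) (.ex (.and (.sub 0 d.succ.succ) (fBasis 0 1))))

theorem sat_fCl (x d : Fin n) : Sat M (fCl x d) v ↔ v x ⊆ M.closure (v d) := by
  simp only [fCl, Sat, sat_fBasis, Matrix.cons_val_zero, Matrix.cons_val_one,
    Matrix.cons_val_succ]
  constructor
  · rintro ⟨W, hW, hxW, I, _, hId, hI⟩
    exact hxW.trans (((hI.isBasis hW).subset_closure).trans (M.closure_subset_closure hId))
  · intro h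
    obtain ⟨I, hI⟩ := M.exists_isBasis' (v d)
    exact ⟨M.closure (v d), M.closure_subset_ground _, h, I, hI.indep.subset_ground, hI.subset,
      hI.isBasis_closure_right.isBasis'⟩

/-- `X_c` is a circuit. -/
def fCirc (c : Fin n) : Fml n :=
  .and (.ex (.sub c.succ 0)) (.and (.neg (.ind c))
    (.all (.imp (.sub 0 c.succ) (.or (.ind 0) (.sub c.succ 0)))))

theorem sat_fCirc (c : Fin n) : Sat M (fCirc c) v ↔ M.IsCircuit (v c) := by
  simp only [fCirc, Sat, Matrix.cons_val_zero, Matrix.cons_val_succ]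
  constructor
  · rintro ⟨⟨X, hX, hcX⟩, h1, h2⟩
    have hcE : v c ⊆ M.E := hcX.trans hX
    rw [Matroid.isCircuit_iff_minimal_not_indep hcE]
    refine ⟨h1, fun Y hY hYc => ?_⟩
    rcases h2 Y (subset_trans hYc hcE) hYc with h3 | h3
    · exact absurd h3 hY
    · exact h3
  · intro h
    refine ⟨⟨M.E, Subset.refl _, h.subset_ground⟩, h.not_indep, fun Y hYE hY => ?_⟩
    by_cases hi : M.Indep Y
    · exact Or.inl hi
    · exact Or.inr (h.eq_of_not_indep_subset hi hY).symm.subset

/-- `X_x` is a set with exactly one element, which lies in the ground set. -/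
def fSing (x : Fin n) : Fml n :=
  .and (.ex (.sub x.succ 0)) (.and (.neg (.all (.sub x.succ 0)))
    (.all (.imp (.sub 0 x.succ) (.or (.all (.sub 1 0)) (.sub x.succ 0)))))

theorem sat_fSing (x : Fin n) : Sat M (fSing x) v ↔ ∃ a ∈ M.E, v x = {a} := by
  simp only [fSing, Sat, Matrix.cons_val_zero, Matrix.cons_val_one, Matrix.cons_val_succ]
  constructor
  · rintro ⟨⟨X, hX, hxX⟩, h1, h2⟩
    have hxE : v x ⊆ M.E := hxX.trans hX
    push Not at h1
    obtain ⟨Z, _, hZ⟩ := h1
    obtain ⟨a, ha, _⟩ := Set.not_subset.1 hZ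
    refine ⟨a, hxE ha, ?_⟩
    rcases h2 {a} (singleton_subset_iff.2 (hxE ha)) (singleton_subset_iff.2 ha) with h3 | h3
    · exact absurd (h3 ∅ (empty_subset _) rfl) (notMem_empty a)
    · exact subset_antisymm h3 (singleton_subset_iff.2 ha)
  · rintro ⟨a, ha, hxa⟩
    rw [hxa]
    refine ⟨⟨{a}, singleton_subset_iff.2 ha, Subset.refl _⟩, ?_, ?_⟩
    · intro h
      exact absurd (h ∅ (empty_subset _) rfl) (notMem_empty a)
    · intro Y _ hY
      rcases Set.subset_singleton_iff_eq.1 hY with h1 | h1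
      · left
        intro Z _
        rw [h1]
        exact empty_subset _
      · right
        rw [h1]

/-- Quantification over an element. -/
def exEl (φ : Fml (n + 1)) : Fml n := .ex (.and (fSing 0) φ)

/-- Quantification over all elements. -/
def allEl (φ : Fml (n + 1)) : Fml n := .all (.imp (fSing 0) φ)

theorem sat_exEl (φ : Fml (n + 1)) :
    Sat M (exEl φ) v ↔ ∃ a ∈ M.E, Sat M φ (Matrix.vecCons {a} v) := by
  simp only [exEl, Sat, sat_fSing, Matrix.cons_val_zero]
  constructor
  · rintro ⟨X, _, ⟨a, ha, rfl⟩, h⟩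
    exact ⟨a, ha, h⟩
  · rintro ⟨a, ha, h⟩
    exact ⟨{a}, singleton_subset_iff.2 ha, ⟨a, ha, rfl⟩, h⟩

theorem sat_allEl (φ : Fml (n + 1)) :
    Sat M (allEl φ) v ↔ ∀ a ∈ M.E, Sat M φ (Matrix.vecCons {a} v) := by
  simp only [allEl, Sat, sat_fSing, Matrix.cons_val_zero]
  constructor
  · intro h a ha
    exact h {a} (singleton_subset_iff.2 ha) ⟨a, ha, rfl⟩
  · rintro h X _ ⟨a, ha, rfl⟩
    exact h a ha

/-- `X_d` is a circuit with exactly one element outside `X_l`. -/
def fFC (l d : Fin n) : Fml n :=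
  .and (fCirc d) (exEl (.and (.neg (.sub 0 l.succ)) (.and (.sub 0 d.succ)
    (allEl (.imp (.sub 0 d.succ.succ) (.or (.sub 0 1) (.sub 0 l.succ.succ)))))))

theorem sat_fFC (l d : Fin n) : Sat M (fFC l d) v ↔ FC M (v l) (v d) := by
  simp only [fFC, Sat, sat_fCirc, sat_exEl, sat_allEl, Matrix.cons_val_zero,
    Matrix.cons_val_one, Matrix.cons_val_succ, singleton_subset_iff, mem_singleton_iff, FC]
  constructor
  · rintro ⟨h1, y, hy, h2, h3, h4⟩
    exact ⟨h1, y, h2, h3, fun z hz => h4 z (h1.subset_ground hz) hz⟩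
  · rintro ⟨h1, y, h2, h3, h4⟩
    exact ⟨h1, y, h1.subset_ground h3, h2, h3, fun z _ hz => h4 z hz⟩

/-- `X_k` is a separator. -/
def fSep (k : Fin n) : Fml n :=
  .all (.imp (fCirc 0) (.or (.sub 0 k.succ)
    (allEl (.imp (.sub 0 1) (.neg (.sub 0 k.succ.succ))))))

theorem sat_fSep (k : Fin n) : Sat M (fSep k) v ↔ Separator M (v k) := by
  simp only [fSep, Sat, sat_fCirc, sat_allEl, Matrix.cons_val_zero,
    Matrix.cons_val_one, Matrix.cons_val_succ, singleton_subset_iff, Separator, Set.disjoint_left]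
  constructor
  · intro h C hC
    rcases h C hC.subset_ground hC with h1 | h1
    · exact Or.inl h1
    · exact Or.inr (fun {a} ha => h1 a (hC.subset_ground ha) ha)
  · intro h C _ hC
    rcases h C hC with h1 | h1
    · exact Or.inl h1
    · exact Or.inr (fun a _ ha => h1 ha)

/-- `X_k` is a component. -/
def fComp (k : Fin n) : Fml n :=
  .and (.ex (.sub k.succ 0)) (.and (exEl (.sub 0 k.succ)) (.and (fSep k)
    (.all (.imp (.sub 0 k.succ) (.imp (exEl (.sub 0 1)) (.imp (fSep 0) (.sub k.succ 0)))))))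

theorem sat_fComp (k : Fin n) : Sat M (fComp k) v ↔ Component M (v k) := by
  simp only [fComp, Sat, sat_fSep, sat_exEl, Matrix.cons_val_zero,
    Matrix.cons_val_one, Matrix.cons_val_succ, singleton_subset_iff, Component]
  constructor
  · rintro ⟨⟨X, hX, hkX⟩, ⟨a, _, ha⟩, h1, h2⟩
    have hkE : v k ⊆ M.E := hkX.trans hX
    refine ⟨hkE, ⟨a, ha⟩, h1, ?_⟩
    rintro K' hK' ⟨b, hb⟩ hsep
    exact h2 K' (hK'.trans hkE) hK' ⟨b, hkE (hK' hb), hb⟩ hsep
  · rintro ⟨hkE, ⟨a, ha⟩, h1, h2⟩
    refine ⟨⟨M.E, Subset.refl _, hkE⟩, ⟨a, hkE ha, ha⟩, h1, ?_⟩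
    rintro K' _ hK' ⟨b, _, hb⟩ hsep
    exact h2 K' hK' ⟨b, hb⟩ hsep

end

/-- The chain condition for `X_l`. -/
def fChain (l : Fin 2) : Fml 2 :=
  .all (.imp (fFC l.succ 0) (.all (.imp (fFC l.succ.succ 0) (.or (fCl 1 0) (fCl 0 1)))))

/-- The mixed chain condition (`L = X_1`, `U = X_0`). -/
def fMix : Fml 2 :=
  .all (.imp (fFC 2 0) (.all (.imp (fFC 2 0)
    (.or (allEl (.imp (fCl 0 2) (.neg (fCl 0 1)))) (allEl (.or (fCl 0 2) (fCl 0 1)))))))

/-- The existence of a modular pair of bases (`D₁ = X_1`, `D₂ = X_0`). -/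
def fMod : Fml 5 :=
  .ex (.and (.ind 0) (.ex (.and (.sub 0 1) (.ex (.and (.sub 0 2)
    (.and (fCl 1 4) (.and (fCl 4 1) (.and (fCl 0 3) (fCl 3 0)))))))))

/-- The condition on the circuits (`L = X_1`, `U = X_0`). -/
def fCrit : Fml 2 :=
  .all (.imp (fCirc 0) (.ex (.and (fFC 3 0) (.ex (.and (fFC 3 0)
    (.and (fCl 2 1) (.and (fCl 2 0) (.and
      (allEl (.imp (fCl 0 2) (.imp (fCl 0 1) (fCl 0 3)))) fMod))))))))

/-- The sentence for the structural condition. -/
def fPhi : Fml 0 :=
  .ex (.ex (.and (fChain 1) (.and (fChain 0) (.and fMix fCrit))))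

theorem sat_fChain (l : Fin 2) (v : Fin 2 → Set α) : Sat M (fChain l) v ↔
    ∀ D₁, FC M (v l) D₁ → ∀ D₂, FC M (v l) D₂ → D₁ ⊆ M.closure D₂ ∨ D₂ ⊆ M.closure D₁ := by
  simp only [fChain, Sat, sat_fFC, sat_fCl, Matrix.cons_val_zero, Matrix.cons_val_one,
    Matrix.cons_val_succ]
  constructor
  · intro h D₁ h1 D₂ h2
    exact h D₁ h1.1.subset_ground h1 D₂ h2.1.subset_ground h2
  · intro h D₁ _ h1 D₂ _ h2
    exact h D₁ h1 D₂ h2

theorem sat_fMix (L U : Set α) : Sat M fMix ![U, L] ↔
    ∀ D₁, FC M L D₁ → ∀ D₂, FC M U D₂ →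
      (∀ x, x ∈ M.closure D₁ → x ∉ M.closure D₂) ∨
      (∀ x ∈ M.E, x ∈ M.closure D₁ ∨ x ∈ M.closure D₂) := by
  simp only [fMix, Sat, sat_fFC, sat_fCl, sat_allEl, Matrix.cons_val_zero,
    Matrix.cons_val_one, Matrix.cons_val_two, singleton_subset_iff]
  constructor
  · intro h D₁ h1 D₂ h2
    rcases h D₁ h1.1.subset_ground h1 D₂ h2.1.subset_ground h2 with h3 | h3
    · exact Or.inl (fun x hx => h3 x (M.closure_subset_ground _ hx) hx)
    · exact Or.inr h3
  · intro h D₁ _ h1 D₂ _ h2
    rcases h D₁ h1 D₂ h2 with h3 | h3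
    · exact Or.inl (fun x _ hx => h3 x hx)
    · exact Or.inr h3

theorem sat_fMod (D₂ D₁ C U L : Set α) : Sat M fMod ![D₂, D₁, C, U, L] ↔
    ∃ B, M.Indep B ∧ ∃ I ⊆ B, ∃ J ⊆ B,
        I ⊆ M.closure D₁ ∧ D₁ ⊆ M.closure I ∧ J ⊆ M.closure D₂ ∧ D₂ ⊆ M.closure J := by
  simp only [fMod, Sat, sat_fCl, Matrix.cons_val, Matrix.cons_val_zero,
    Matrix.cons_val_one, Matrix.cons_val_two]
  constructor
  · rintro ⟨B, _, hB, I, _, hI, J, _, hJ, h⟩
    exact ⟨B, hB, I, hI, J, hJ, h⟩
  · rintro ⟨B, hB, I, hI, J, hJ, h⟩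
    exact ⟨B, hB.subset_ground, hB, I, hI.trans hB.subset_ground, hI, J,
      hJ.trans hB.subset_ground, hJ, h⟩

theorem sat_fCrit (L U : Set α) : Sat M fCrit ![U, L] ↔
    ∀ C, M.IsCircuit C → ∃ D₁, FC M L D₁ ∧ ∃ D₂, FC M U D₂ ∧
      C ⊆ M.closure D₁ ∧ C ⊆ M.closure D₂ ∧
      (∀ x, x ∈ M.closure D₁ → x ∈ M.closure D₂ → x ∈ M.closure C) ∧
      ∃ B, M.Indep B ∧ ∃ I ⊆ B, ∃ J ⊆ B,
        I ⊆ M.closure D₁ ∧ D₁ ⊆ M.closure I ∧ J ⊆ M.closure D₂ ∧ D₂ ⊆ M.closure J := by
  simp only [fCrit, Sat, sat_fFC, sat_fCl, sat_fCirc, sat_allEl, sat_fMod, Matrix.cons_val,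
    Matrix.cons_val_zero, Matrix.cons_val_one, Matrix.cons_val_two, singleton_subset_iff]
  constructor
  · intro h C hC
    obtain ⟨D₁, _, h1, D₂, _, h2, h3, h4, h5, h6⟩ := h C hC.subset_ground hC
    exact ⟨D₁, h1, D₂, h2, h3, h4, fun x hx => h5 x (M.closure_subset_ground _ hx) hx, h6⟩
  · intro h C _ hC
    obtain ⟨D₁, h1, D₂, h2, h3, h4, h5, h6⟩ := h C hC
    exact ⟨D₁, h1.1.subset_ground, h1, D₂, h2.1.subset_ground, h2, h3, h4,
      fun x _ hx => h5 x hx, h6⟩

theorem sat_fPhi : Sat M fPhi ![] ↔ PhiConn M := by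
  simp only [fPhi, Sat, sat_fChain, sat_fMix, sat_fCrit, PhiConn, Matrix.cons_val_zero,
    Matrix.cons_val_one]

/-! ### Relativization -/

/-- Relativization of a formula to a subset: the new free variable, which stands for the subset,
is the last one. -/
def rel : {n : ℕ} → Fml n → Fml (n + 1)
  | n, .ind i => .and (.ind i.castSucc) (.sub i.castSucc (Fin.last n))
  | _, .sub i j => .sub i.castSucc j.castSucc
  | _, .neg φ => .neg (rel φ)
  | _, .and φ ψ => .and (rel φ) (rel ψ)
  | _, .or φ ψ => .or (rel φ) (rel ψ)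
  | _, .imp φ ψ => .imp (rel φ) (rel ψ)
  | n, .ex φ => .ex (.and (.sub 0 (Fin.last (n + 1))) (rel φ))
  | n, .all φ => .all (.imp (.sub 0 (Fin.last (n + 1))) (rel φ))

/-- The assignment `v` with the value `K` for the new last variable. -/
def addLast {n : ℕ} (v : Fin n → Set α) (K : Set α) : Fin (n + 1) → Set α :=
  Fin.snoc (α := fun _ => Set α) v K

theorem addLast_castSucc {n : ℕ} (v : Fin n → Set α) (K : Set α) (i : Fin n) :
    addLast v K i.castSucc = v i := Fin.snoc_castSucc (α := fun _ => Set α) K v i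

theorem addLast_last {n : ℕ} (v : Fin n → Set α) (K : Set α) :
    addLast v K (Fin.last n) = K := Fin.snoc_last (α := fun _ => Set α) K v

theorem cons_addLast {n : ℕ} (v : Fin n → Set α) (K X : Set α) :
    Matrix.vecCons X (addLast v K) = addLast (Matrix.vecCons X v) K := by
  have h := Fin.cons_snoc_eq_snoc_cons (β := Set α) X v K
  exact h

theorem sat_rel {K : Set α} (hK : K ⊆ M.E) {n : ℕ} (φ : Fml n) (v : Fin n → Set α) :
    Sat M (rel φ) (addLast v K) ↔ Sat (M ↾ K) φ v := by
  induction φ with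
  | ind i =>
    simp only [rel, Sat, addLast_castSucc, addLast_last, Matroid.restrict_indep_iff]
  | sub i j => simp only [rel, Sat, addLast_castSucc]
  | neg φ ih => simp only [rel, Sat, ih]
  | and φ ψ ih₁ ih₂ => simp only [rel, Sat, ih₁, ih₂]
  | or φ ψ ih₁ ih₂ => simp only [rel, Sat, ih₁, ih₂]
  | imp φ ψ ih₁ ih₂ => simp only [rel, Sat, ih₁, ih₂]
  | ex φ ih =>
    simp only [rel, Sat, cons_addLast, ih, addLast_last, Matroid.restrict_ground_eq]
    constructor
    · rintro ⟨X, hX, h1, h2⟩
      exact ⟨X, h1, h2⟩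
    · rintro ⟨X, h1, h2⟩
      exact ⟨X, h1.trans hK, h1, h2⟩
  | all φ ih =>
    simp only [rel, Sat, cons_addLast, ih, addLast_last, Matroid.restrict_ground_eq]
    constructor
    · intro h X hX
      exact h X (hX.trans hK) hX
    · intro h X _ hX
      exact h X hX

/-- The sentence characterising lattice path matroids. -/
def fAll : Fml 0 := .all (.imp (fComp 0) (rel fPhi))

theorem sat_fAll : Sat M fAll ![] ↔ PhiAll M := by
  simp only [fAll, Sat, sat_fComp, PhiAll, Matrix.cons_val_zero]
  have h : ∀ K : Set α, Matrix.vecCons K (![] : Fin 0 → Set α) = addLast ![] K := by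
    intro K
    ext i
    fin_cases i
    rfl
  constructor
  · intro h1 K hK
    have h2 := h1 K hK.1 hK
    rw [h, sat_rel M hK.1, sat_fPhi] at h2
    exact h2
  · intro h1 K _ hK
    rw [h, sat_rel M hK.1, sat_fPhi]
    exact h1 K hK

end Formulas

/-- **Main theorem.**  There is a sentence of `MS₀` which is satisfied by a finite matroid `M` if
and only if `M` is a lattice path matroid. -/
theorem result : ∃ φ : Fml 0, ∀ (α : Type u) (M : Matroid α), M.Finite →
    (Sat M φ ![] ↔ IsLatticePathMatroid M) :=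
  ⟨fAll, fun _ M _ => (sat_fAll M).trans (isLatticePathMatroid_iff M).symm⟩

end Pool.Agent.Results.MP_b5ca43_co.LatticePathMSO
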